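import Mathlib
import Pool.Agent.H969R2.Coh
import Pool.Agent.H969R2.Numer

set_option autoImplicit false
set_option linter.unusedSectionVars false
set_option linter.unusedVariables false

open CategoryTheory CategoryTheory.Limits CategoryTheory.Abelian ZeroObject

namespace Pool.Agent.H969R2

universe w₁

section coh

variable {k : Type} [Field k] (f : MvPolynomial (Fin 5) k)

/-- Coherent sheaves on the hypersurface: the sheaves attached to finitely generated graded
modules. -/
def cohX : ObjectProperty (QX one5 (charts (Fin 5)) f 4) := fun E =>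
  ∃ M : GrF one5 f 4, FGr M.obj ∧ Nonempty (E ≅ (shX one5 (charts (Fin 5)) f 4).obj M)

lemma cohX_iso (E F : QX one5 (charts (Fin 5)) f 4) (e : E ≅ F) (h : cohX f E) : cohX f F := by
  obtain ⟨M, hM, ⟨e'⟩⟩ := h
  exact ⟨M, hM, ⟨e.symm ≪≫ e'⟩⟩

lemma cohX_zero (E : QX one5 (charts (Fin 5)) f 4) (h : IsZero E) : cohX f E := by
  refine ⟨0, ⟨∅, Set.finite_empty, fun m y => ?_⟩, ⟨h.iso ?_⟩⟩
  · have h1 : IsZero ((killed one5 f 4).ι.obj (0 : GrF one5 f 4)) :=
      (killed one5 f 4).ι.map_isZero (isZero_zero _)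
    have h2 : IsZero (((killed one5 f 4).ι.obj (0 : GrF one5 f 4)).obj m) :=
      (Functor.isZero_iff _).1 h1 m
    have := ModuleCat.subsingleton_of_isZero h2
    have h3 : y = 0 := @Subsingleton.elim _ this _ _
    rw [h3]
    exact zero_mem _
  · exact (shX one5 (charts (Fin 5)) f 4).map_isZero (isZero_zero _)

lemma freeF_power_fg (m : ℕ) (b : Deg one5 (∅ : Set (Fin 5))) (N : GrF one5 f 4)
    (i : N ⟶ ⨁ (fun _ : Fin m => freeF f 4 b)) [Mono i] : FGr N.obj := by
  let F : Fin m → GrF one5 f 4 := fun _ => freeF f 4 b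
  let M : GrF one5 f 4 := ⨁ F
  let e : Fin m → M.obj.obj b := fun j => (biproduct.ι F j).hom.app b
    ((freeFπ f 4 b).app b (gen k one5 b))
  have hi : Mono i.hom := inferInstanceAs (Mono ((killed one5 f 4).ι.map i))
  refine fg_of_mono b i.hom hi m e fun d x => ?_
  have h1 : ∀ j, ∃ t : ivObj k one5 (Set.Ici 0) b d, (freeFπ f 4 b).app d t =
      (biproduct.π F j).hom.app d x := fun j => (epi_iff (freeFπ f 4 b)).1 inferInstance d _
  choose t ht using h1
  refine ⟨t, ?_⟩
  have h2 : ∀ j, lift (e j) = freeFπ f 4 b ≫ (biproduct.ι F j).hom := by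
    intro j
    apply free_hom_ext
    rw [lift_gen]
    rfl
  have h3 : ∀ j, (lift (e j)).app d (t j) =
      (biproduct.π F j ≫ biproduct.ι F j).hom.app d x := by
    intro j
    rw [h2]
    change (biproduct.ι F j).hom.app d ((freeFπ f 4 b).app d (t j)) = _
    rw [ht]
    rfl
  have h4 : ∀ (s : Finset (Fin m)) (u : Fin m → (M ⟶ M)),
      (∑ j ∈ s, u j).hom.app d x = ∑ j ∈ s, (u j).hom.app d x := by
    intro s u
    induction s using Finset.induction with
    | empty => rfl
    | insert a s ha ih =>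
      rw [Finset.sum_insert ha, Finset.sum_insert ha, ← ih]
      rfl
  have h5 : x = (𝟙 M : M ⟶ M).hom.app d x := rfl
  conv_lhs => rw [h5, ← biproduct.total, h4]
  exact Finset.sum_congr rfl fun j _ => (h3 j).symm

lemma cohX_sub' (m : ℕ) (b : Deg one5 (∅ : Set (Fin 5))) (Z K : QX one5 (charts (Fin 5)) f 4)
    (p : Fin m → (Z ⟶ (shX one5 (charts (Fin 5)) f 4).obj (freeF f 4 b)))
    (q : Fin m → ((shX one5 (charts (Fin 5)) f 4).obj (freeF f 4 b) ⟶ Z))
    (tot : ∑ j, p j ≫ q j = 𝟙 Z) (i : K ⟶ Z) (hi : Mono i) : cohX f K := by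
  let L := shX one5 (charts (Fin 5)) f 4
  let P := torsF (k := k) (w := one5) f 4 (charts (Fin 5))
  let F : Fin m → GrF one5 f 4 := fun _ => freeF f 4 b
  let M : GrF one5 f 4 := ⨁ F
  let e : Z ⟶ L.obj M := ∑ j, p j ≫ L.map (biproduct.ι F j)
  let r : L.obj M ⟶ Z := ∑ j, L.map (biproduct.π F j) ≫ q j
  have her : e ≫ r = 𝟙 Z := by
    simp only [e, r]
    rw [Preadditive.sum_comp]
    rw [← tot]
    refine Finset.sum_congr rfl fun j _ => ?_
    rw [Preadditive.comp_sum]
    rw [Finset.sum_eq_single j]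
    · rw [Category.assoc, ← Category.assoc (L.map _), ← L.map_comp, biproduct.ι_π_self, L.map_id]
      congr 1
      exact Category.id_comp _
    · intro j' _ hj'
      rw [Category.assoc, ← Category.assoc (L.map _), ← L.map_comp,
        biproduct.ι_π_ne _ (Ne.symm hj'), L.map_zero, zero_comp, comp_zero]
    · intro h
      exact absurd (Finset.mem_univ j) h
  have he : Mono e := ⟨fun a b hab => by
    have := congrArg (fun g => g ≫ r) hab
    simp only [Category.assoc, her, Category.comp_id] at this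
    exact this⟩
  have hess : L.EssSurj := Localization.essSurj L P.isoModSerre
  let g : L.obj (L.objPreimage K) ⟶ L.obj M := (L.objObjPreimageIso K).hom ≫ i ≫ e
  have hg : Mono g := inferInstance
  obtain ⟨φ, hφ⟩ := Localization.exists_rightFraction L P.isoModSerre g
  have hs : IsIso (L.map φ.s) := Localization.inverts L P.isoModSerre φ.s φ.hs
  have h1 : L.map φ.s ≫ g = L.map φ.f := by
    rw [hφ]
    exact MorphismProperty.RightFraction.map_s_comp_map _ _ _
  have h2 : Mono (L.map φ.f) := by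
    rw [← h1]
    infer_instance
  have h3 : P.monoModSerre φ.f :=
    (ObjectProperty.SerreClassLocalization.mono_map_iff L P φ.f).1 h2
  have h4 := h3.isoModSerre_factorThruImage
  have h5 : IsIso (L.map (Abelian.factorThruImage φ.f)) := Localization.inverts L P.isoModSerre _ h4
  refine ⟨Abelian.image φ.f, freeF_power_fg f m b _ (Abelian.image.ι φ.f), ⟨?_⟩⟩
  exact (L.objObjPreimageIso K).symm ≪≫ (asIso (L.map φ.s)).symm ≪≫
    asIso (L.map (Abelian.factorThruImage φ.f))

lemma cohX_sub (m : ℕ) (Z K : QX one5 (charts (Fin 5)) f 4) (d : Dec m Z (OX f 0)) (i : K ⟶ Z)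
    (hi : Mono i) : cohX f K :=
  cohX_sub' f m _ Z K d.p d.q d.tot i hi

end coh

end Pool.Agent.H969R2
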