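import Mathlib
import Pool.Agent.H969R2.XExt

set_option autoImplicit false
set_option linter.unusedSectionVars false
set_option linter.unusedVariables false

open CategoryTheory CategoryTheory.Limits CategoryTheory.Abelian ZeroObject

namespace Pool.Agent.H969R2

section gen

variable {k : Type} [Field k]

/-- Powers of the variables as morphisms of degrees. -/
def pw {b c : Deg one5 (∅ : Set (Fin 5))} (N : ℕ) (h : b.deg + N = c.deg) (j : Fin 5) : b ⟶ c :=
  ⟨Pi.single j (N : ℤ), fun i _ => by
    by_cases hi : i = j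
    · subst hi
      rw [Pi.single_eq_same]
      exact Int.natCast_nonneg _
    · rw [Pi.single_eq_of_ne hi], by
    rw [wt_one5, Finset.sum_pi_single', if_pos (Finset.mem_univ j)]
    exact h⟩

lemma tors_of_killed {b c : Deg one5 (∅ : Set (Fin 5))} (N : ℕ) (hN : b.deg + N = c.deg)
    (W : Gr0 k one5) (π : free k one5 b ⟶ W) (hπ : Epi π)
    (h : ∀ j : Fin 5, W.map (pw N hN j) (π.app b (gen k one5 b)) = 0) :
    tors (charts (Fin 5)) W := by
  intro j m x
  obtain ⟨y, rfl⟩ := (epi_iff π).1 hπ m x
  let m' : Deg one5 (∅ : Set (Fin 5)) := ⟨m.deg + N⟩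
  let β : m ⟶ m' := pw N rfl j
  refine ⟨m', β, ?_, ?_⟩
  · intro i hi
    exact Pi.single_eq_of_ne hi _
  · let A : ivObj k one5 (Set.Ici 0) b m →ₗ[k] W.obj m' := (W.map β).hom ∘ₗ (π.app m).hom
    have hA : A = 0 := by
      refine sgl_span fun α hα => ?_
      change W.map β (π.app m (sgl α hα : ivObj k one5 (Set.Ici 0) b m)) = 0
      rw [← gen_map α hα]
      have h1 := nat_apply π (homOf α hα) (gen k one5 b)
      rw [h1]
      let γ : c ⟶ m' := ⟨α, fun i _ => hα.1 i, by
        have h2 : b.deg + wt one5 α = m.deg := hα.2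
        change c.deg + wt one5 α = m.deg + N
        rw [← hN, ← h2]
        ring⟩
      have h3 : homOf α hα ≫ β = pw N hN j ≫ γ := by
        apply Deg.hom_ext
        exact add_comm _ _
      have h4 : W.map β (W.map (homOf α hα) (π.app b (gen k one5 b))) =
          W.map (homOf α hα ≫ β) (π.app b (gen k one5 b)) := by
        rw [W.map_comp]
        rfl
      rw [h4, h3, W.map_comp]
      change W.map γ (W.map (pw N hN j) (π.app b (gen k one5 b))) = 0
      rw [h j, map_zero]
    exact congrArg (fun g => g y) hA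

variable (f : MvPolynomial (Fin 5) k)

theorem OX_gen' (b c : Deg one5 (∅ : Set (Fin 5))) (N : ℕ) (hN : b.deg + (N : ℤ) = c.deg)
    (Z : QX one5 (charts (Fin 5)) f 4)
    (g : (shX one5 (charts (Fin 5)) f 4).obj (freeF f 4 b) ⟶ Z)
    (h : ∀ u : (shX one5 (charts (Fin 5)) f 4).obj (freeF f 4 c) ⟶
      (shX one5 (charts (Fin 5)) f 4).obj (freeF f 4 b), u ≫ g = 0) : g = 0 := by
  let L := shX one5 (charts (Fin 5)) f 4
  let P := torsF (k := k) (w := one5) f 4 (charts (Fin 5))
  let x : Fin 5 → (freeF f 4 b).obj.obj c := fun j =>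
    (freeF f 4 b).obj.map (pw N hN j) ((freeFπ f 4 b).app b (gen k one5 b))
  let F : Fin 5 → GrF one5 f 4 := fun _ => freeF f 4 c
  let u : ∀ j : Fin 5, F j ⟶ freeF f 4 b := fun j => freeFdesc f 4 (lift (x j))
  let U : (⨁ F) ⟶ freeF f 4 b := biproduct.desc u
  let π : free k one5 b ⟶ (cokernel U).obj := freeFπ f 4 b ≫ (cokernel.π U).hom
  have hπ1 : Epi (cokernel.π U).hom :=
    inferInstanceAs (Epi ((killed one5 f 4).ι.map (cokernel.π U)))
  have hπ : Epi π := epi_comp _ _
  have hW : P (cokernel U) := by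
    refine tors_of_killed N hN (cokernel U).obj π hπ fun j => ?_
    have h1 : π.app b (gen k one5 b) =
        (cokernel.π U).hom.app b ((freeFπ f 4 b).app b (gen k one5 b)) := rfl
    have h2 := nat_apply (cokernel.π U).hom (pw N hN j) ((freeFπ f 4 b).app b (gen k one5 b))
    rw [h1, ← h2]
    have h3 : (u j).hom.app c ((freeFπ f 4 c).app c (gen k one5 c)) = x j := by
      have h4 := congrArg (fun g => g (gen k one5 c)) (congrArg ModuleCat.Hom.hom
        (congrArg (fun g => g.app c) (freeFπ_desc f 4 (lift (x j)))))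
      refine Eq.trans h4 ?_
      exact lift_gen (x j)
    change (cokernel.π U).hom.app c (x j) = 0
    rw [← h3]
    have h5 : u j ≫ cokernel.π U = 0 := by
      have h6 : u j = biproduct.ι F j ≫ U := by simp [U]
      rw [h6, Category.assoc, cokernel.condition, comp_zero]
    have h7 := congrArg (fun g => g ((freeFπ f 4 c).app c (gen k one5 c)))
      (congrArg ModuleCat.Hom.hom (congrArg (fun g => g.app c)
        (congrArg InducedCategory.Hom.hom h5)))
    exact h7
  have hU : P.epiModSerre U := hW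
  have hLU : Epi (L.map U) := (ObjectProperty.SerreClassLocalization.epi_map_iff L P U).2 hU
  have hz : L.map U ≫ g = 0 := by
    have h8 : ∑ j, L.map (biproduct.π F j) ≫ L.map (biproduct.ι F j) = 𝟙 (L.obj (⨁ F)) := by
      simp only [← Functor.map_comp]
      rw [← Functor.map_sum, biproduct.total, CategoryTheory.Functor.map_id]
    rw [← Category.id_comp (L.map U ≫ g), ← h8, Preadditive.sum_comp]
    refine Finset.sum_eq_zero fun j _ => ?_
    have h9 : L.map (biproduct.ι F j) ≫ L.map U ≫ g = 0 := by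
      rw [← Category.assoc, ← L.map_comp]
      have h10 : biproduct.ι F j ≫ U = u j := by simp [U]
      rw [h10]
      exact h (L.map (u j))
    rw [Category.assoc, h9, comp_zero]
  have h11 : L.map U ≫ g = L.map U ≫ 0 := by rw [hz, comp_zero]
  exact (cancel_epi (L.map U)).1 h11

/-- Positive line bundles are globally generated. -/
theorem OX_gen (n : ℤ) (hn : 0 ≤ n) (Z : QX one5 (charts (Fin 5)) f 4) (g : OX f n ⟶ Z)
    (h : ∀ u : OX f 0 ⟶ OX f n, u ≫ g = 0) : g = 0 := by
  obtain ⟨N, rfl⟩ := Int.eq_ofNat_of_zero_le hn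
  exact OX_gen' f ⟨-(N : ℤ)⟩ ⟨-0⟩ N (by simp) Z g h

end gen

end Pool.Agent.H969R2
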